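import Pool.Agent.Pfi.Small

/-!
Finite extensions `E / F` of large degree `n`: every Pfister form over `E` whose dimension is at
least `(1 / 4 + ε) n u(F)` is isotropic.
-/

namespace Pool.Agent.Results.MP_420cd4_al.PfisterHalfLeep

open Pool.Agent.Pfi

universe u

theorem result (ε : ℝ) (hε : 0 < ε) :
    ∃ n0 : ℕ, ∀ (F E : Type u) [Field F] [Field E] [Algebra F E] [FiniteDimensional F E],
      (2 : F) ≠ 0 → ∀ u0 : ℕ, uInv F = u0 → n0 ≤ Module.finrank F E →
      ∀ m : ℕ, (1 / 4 + ε) * (Module.finrank F E * u0) ≤ 2 ^ m →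
      ∀ a : Fin m → E, (∀ i, a i ≠ 0) → PfisterIsotropic a :=
  pfister_quarter ε hε

end Pool.Agent.Results.MP_420cd4_al.PfisterHalfLeep
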