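import Pool.Agent.Pfi.Small

/-!
Finite extensions `E / F` of degree at most `6` (at most `8` if `u(F)` is a power of two): every
Pfister form over `E` of dimension greater than `2 u(F)` is isotropic.
-/

namespace Pool.Agent.Results.MP_420cd4_al.PfisterSmallDegree

open Pool.Agent.Pfi

universe u

theorem result (F E : Type u) [Field F] [Field E] [Algebra F E] [FiniteDimensional F E]
    (h2 : (2 : F) ≠ 0) (u0 : ℕ) (hu : uInv F = u0)
    (hn : Module.finrank F E ≤ 6 ∨ (Module.finrank F E ≤ 8 ∧ ∃ k : ℕ, u0 = 2 ^ k)) :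
    (∀ m : ℕ, 2 * u0 < 2 ^ m → ∀ a : Fin m → E, (∀ i, a i ≠ 0) → PfisterIsotropic a) ∧
      (u0 = 1 → uInv E ≤ 2) :=
  small_degree F E h2 u0 hu hn

end Pool.Agent.Results.MP_420cd4_al.PfisterSmallDegree
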